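import Pool.Agent.Helper93_ABCT.StmtK

/-!
# ULIN: comparison of determinants (helper66)
-/

namespace PosGeom

namespace H66

open Matrix

theorem det_ne {A C : Type} [Fintype A] [Fintype C] [DecidableEq A] (f : A → (C → ℚ))
    (h1 : LinearIndependent ℚ f) (q : A ≃ C) :
    (Matrix.of fun (i j : A) => f i (q j)).det ≠ 0 := by
  have h3 : LinearIndependent ℚ (Matrix.of fun (i j : A) => f i (q j)).row := by
    have h2 : (Matrix.of fun (i j : A) => f i (q j)).row = (LinearEquiv.funCongrLeft ℚ ℚ q) ∘ f := by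
      funext i j
      rfl
    rw [h2]
    exact h1.map' _ (LinearEquiv.ker _)
  rw [Matrix.linearIndependent_rows_iff_isUnit, Matrix.isUnit_iff_isUnit_det] at h3
  exact h3.ne_zero

theorem castInd {C : Type} (n : ℕ) (b : Fin n → (C → ℤ)) (hb : LinearIndependent ℤ b) :
    LinearIndependent ℚ (fun i v => ((b i v : ℤ) : ℚ)) := by
  have h1 : LinearIndependent ℤ (fun i v => ((b i v : ℤ) : ℚ)) := by
    have h2 := hb.map' ((Int.castAddHom ℚ).toIntLinearMap.compLeft C) (by
      rw [LinearMap.ker_eq_bot]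
      intro f g h
      funext v
      have h3 := congrFun h v
      simp only [LinearMap.compLeft_apply, Function.comp_apply, AddMonoidHom.coe_toIntLinearMap,
        Int.coe_castAddHom, Int.cast_inj] at h3
      exact h3)
    exact h2
  exact (LinearIndependent.iff_fractionRing ℤ ℚ).mp h1

/-- orthogonal independent families are jointly independent -/
theorem joint {C : Type} [Fintype C] {n r : ℕ} (f : Fin n → (C → ℚ)) (g : Fin r → (C → ℚ))
    (hf : LinearIndependent ℚ f) (hg : LinearIndependent ℚ g)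
    (ho : ∀ i k, ∑ v, f i v * g k v = 0) : LinearIndependent ℚ (Sum.elim f g) := by
  rw [Fintype.linearIndependent_iff] at hf hg ⊢
  intro c hc
  rw [Fintype.sum_sum_type] at hc
  simp only [Sum.elim_inl, Sum.elim_inr] at hc
  have h0 : (∑ i, c (Sum.inl i) • f i) ⬝ᵥ (∑ k, c (Sum.inr k) • g k) = 0 := by
    rw [sum_dotProduct]
    refine Finset.sum_eq_zero fun i _ => ?_
    rw [dotProduct_sum]
    refine Finset.sum_eq_zero fun k _ => ?_
    rw [smul_dotProduct, dotProduct_smul]
    have : f i ⬝ᵥ g k = 0 := ho i k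
    rw [this, smul_zero, smul_zero]
  have h1 : (∑ k, c (Sum.inr k) • g k) = - (∑ i, c (Sum.inl i) • f i) :=
    eq_neg_of_add_eq_zero_right hc
  have h2 : (∑ i, c (Sum.inl i) • f i) = 0 := by
    rw [h1, dotProduct_neg, neg_eq_zero] at h0
    exact dotProduct_self_eq_zero.mp h0
  rw [h2, neg_zero] at h1
  rintro (i | k)
  · exact hf _ h2 i
  · exact hg _ h1 k

/-- a basis of the orthogonal complement -/
theorem annih {C : Type} [Fintype C] {n : ℕ} (f : Fin n → (C → ℚ)) (hf : LinearIndependent ℚ f) :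
    ∃ (r : ℕ) (g : Fin r → (C → ℚ)), LinearIndependent ℚ g ∧ (∀ i k, ∑ v, f i v * g k v = 0) ∧
      n + r = Fintype.card C := by
  classical
  let L : (C → ℚ) →ₗ[ℚ] (Fin n → ℚ) := (Matrix.of f).mulVecLin
  have hL : ∀ a i, L a i = ∑ v, f i v * a v := fun a i => rfl
  have hr : Module.finrank ℚ (LinearMap.range L) = n := by
    have h1 : LinearIndependent ℚ (Matrix.of f).row := hf
    have h2 := h1.rank_matrix
    rw [Fintype.card_fin] at h2
    exact h2
  have hk := LinearMap.finrank_range_add_finrank_ker L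
  rw [hr, Module.finrank_fintype_fun_eq_card] at hk
  let bs := Module.finBasis ℚ (LinearMap.ker L)
  refine ⟨Module.finrank ℚ (LinearMap.ker L), fun k => (bs k : C → ℚ), ?_, ?_, hk⟩
  · exact bs.linearIndependent.map' (LinearMap.ker L).subtype (Submodule.ker_subtype _)
  · intro i k
    have h1 := (bs k).2
    rw [LinearMap.mem_ker] at h1
    rw [← hL, h1, Pi.zero_apply]

theorem clear {C : Type} [Finite C] (a : C → ℚ) :
    ∃ (D : ℤ) (z : C → ℤ), D ≠ 0 ∧ ∀ v, (D : ℚ) * a v = z v := by
  obtain ⟨D, hD⟩ := IsLocalization.exist_integer_multiples_of_finite (nonZeroDivisors ℤ) a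
  choose z hz using hD
  refine ⟨D, z, nonZeroDivisors.coe_ne_zero D, fun v => ?_⟩
  have := hz v
  rw [zsmul_eq_mul] at this
  rw [← this]
  rfl

theorem gram {C : Type} [Fintype C] {n r : ℕ} (f : Fin n → (C → ℚ)) (g : Fin r → (C → ℚ))
    (hfg : LinearIndependent ℚ (Sum.elim f g)) (ho : ∀ i k, ∑ v, f i v * g k v = 0)
    (p : Fin n ⊕ Fin r ≃ C) :
    (Matrix.of fun (i j : Fin n) => ∑ v, f i v * f j v).det ≠ 0 ∧
      (Matrix.of fun (i j : Fin r) => ∑ v, g i v * g j v).det ≠ 0 := by
  classical
  have h1 := det_ne _ hfg p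
  set A : Matrix (Fin n ⊕ Fin r) (Fin n ⊕ Fin r) ℚ :=
    Matrix.of fun i j => (Sum.elim f g) i (p j) with hA
  have h2 : A * A.transpose = Matrix.fromBlocks
      (Matrix.of fun (i j : Fin n) => ∑ v, f i v * f j v) 0 0
      (Matrix.of fun (i j : Fin r) => ∑ v, g i v * g j v) := by
    have e : ∀ i j, (A * A.transpose) i j = ∑ v, (Sum.elim f g) i v * (Sum.elim f g) j v := by
      intro i j
      rw [Matrix.mul_apply]
      exact Fintype.sum_equiv p _ _ fun x => rfl
    ext i j
    rw [e]
    rcases i with i | i <;> rcases j with j | j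
    · rfl
    · simpa using ho i j
    · have := ho j i
      simp only [Matrix.fromBlocks_apply₂₁, Matrix.zero_apply, Sum.elim_inl, Sum.elim_inr]
      rw [← this]
      exact Finset.sum_congr rfl fun v _ => mul_comm _ _
    · rfl
  have h3 := congrArg Matrix.det h2
  rw [Matrix.det_mul, Matrix.det_transpose, Matrix.det_fromBlocks_zero₂₁] at h3
  have h4 := mul_ne_zero h1 h1
  rw [h3] at h4
  exact ⟨left_ne_zero_of_mul h4, right_ne_zero_of_mul h4⟩

theorem ulin : UlinStmt := by
  intro K _ _ W W' _ _ _ n b b' q J M hb hb' h1 h2 hJ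
  classical
  have hbq := castInd n b hb
  have hbq' := castInd n b' hb'
  obtain ⟨r, A, hA1, hA2, hA3⟩ := annih _ hbq
  -- the rational form of the second hypothesis
  have h2' : ∀ a : W → ℚ, (∀ i, ∑ v, a v * (b i v : ℚ) = 0) →
      ∃ a' : W' → ℚ, ∀ w, ∑ v, (a v : K) * J v w = (a' w : K) := by
    intro a ha
    obtain ⟨D, z, hD, hz⟩ := clear a
    obtain ⟨a', ha'⟩ := h2 z (by
      intro i
      have : ((∑ v, z v * b i v : ℤ) : ℚ) = 0 := by
        push_cast
        simp only [← hz, mul_assoc]
        rw [← Finset.mul_sum, ha i, mul_zero]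
      exact_mod_cast this)
    refine ⟨fun w => (a' w : ℚ) / D, fun w => ?_⟩
    have hDK : (D : K) ≠ 0 := by exact_mod_cast hD
    have h3 : (D : K) * ∑ v, (a v : K) * J v w = (a' w : K) := by
      rw [← ha' w, Finset.mul_sum]
      refine Finset.sum_congr rfl fun v _ => ?_
      have h4 : ((D : ℚ) : K) * (a v : K) = ((z v : ℚ) : K) := by
        rw [← hz v, Rat.cast_mul]
      rw [Rat.cast_intCast, Rat.cast_intCast] at h4
      rw [← mul_assoc, h4]
    rw [Rat.cast_div, Rat.cast_intCast, Rat.cast_intCast, ← h3]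
    field_simp
  choose A' hA' using fun k => h2' (A k) (fun i => by
    rw [← hA2 i k]
    exact Finset.sum_congr rfl fun v _ => mul_comm _ _)
  -- orthogonality
  have ho' : ∀ j k, ∑ w, (b' j w : ℚ) * A' k w = 0 := by
    intro j k
    have h3 : ((∑ w, (b' j w : ℚ) * A' k w : ℚ) : K) = 0 := by
      rw [Rat.cast_sum]
      calc ∑ w, (((b' j w : ℚ) * A' k w : ℚ) : K)
          = ∑ w, ∑ v, (A k v : K) * (J v w * (b' j w : K)) := by
            refine Finset.sum_congr rfl fun w _ => ?_
            rw [Rat.cast_mul, ← hA' k w, Rat.cast_intCast, Finset.mul_sum]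
            exact Finset.sum_congr rfl fun v _ => by ring
        _ = ∑ v, (A k v : K) * ∑ i, (b i v : K) * M i j := by
            rw [Finset.sum_comm]
            refine Finset.sum_congr rfl fun v _ => ?_
            rw [← Finset.mul_sum, h1]
        _ = ∑ i, M i j * ((∑ v, (b i v : ℚ) * A k v : ℚ) : K) := by
            simp only [Finset.mul_sum, Rat.cast_sum, Rat.cast_mul, Rat.cast_intCast]
            rw [Finset.sum_comm]
            refine Finset.sum_congr rfl fun i _ => Finset.sum_congr rfl fun v _ => ?_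
            ring
        _ = 0 := by
            refine Finset.sum_eq_zero fun i _ => ?_
            rw [hA2 i k, Rat.cast_zero, mul_zero]
    exact_mod_cast h3
  -- independence of `A'`
  have hA1' : LinearIndependent ℚ A' := by
    rw [Fintype.linearIndependent_iff] at hA1 ⊢
    intro c hc
    apply hA1
    have h3 : Matrix.vecMul (fun v => (((∑ k, c k • A k) v : ℚ) : K)) (J.submatrix id q) = 0 := by
      funext u
      have h4 : ∑ v, (((∑ k, c k • A k) v : ℚ) : K) * J v (q u) =
          (((∑ k, c k • A' k) (q u) : ℚ) : K) := by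
        simp only [Finset.sum_apply, Pi.smul_apply, smul_eq_mul, Rat.cast_sum, Rat.cast_mul,
          Finset.sum_mul]
        rw [Finset.sum_comm]
        refine Finset.sum_congr rfl fun k _ => ?_
        rw [← hA' k (q u), Finset.mul_sum]
        exact Finset.sum_congr rfl fun v _ => by ring
      rw [hc, Pi.zero_apply, Rat.cast_zero] at h4
      exact h4
    have h5 : (fun v => (((∑ k, c k • A k) v : ℚ) : K)) = 0 := by
      by_contra hne
      exact hJ (Matrix.exists_vecMul_eq_zero_iff.mp ⟨_, hne, h3⟩)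
    funext v
    have := congrFun h5 v
    simp only [Pi.zero_apply, Rat.cast_eq_zero] at this
    exact this
  have hC := joint _ A hbq hA1 hA2
  have hC' := joint _ A' hbq' hA1' ho'
  have hcard : Fintype.card (Fin n ⊕ Fin r) = Fintype.card W := by
    rw [Fintype.card_sum, Fintype.card_fin, Fintype.card_fin, hA3]
  obtain ⟨p⟩ : Nonempty (Fin n ⊕ Fin r ≃ W) := ⟨Fintype.equivOfCardEq hcard⟩
  obtain ⟨g1, -⟩ := gram _ A hC hA2 p
  obtain ⟨-, g2⟩ := gram _ A' hC' ho' (p.trans q)
  have d1 := det_ne _ hC p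
  have d2 := det_ne _ hC' (p.trans q)
  set G : Matrix (Fin n) (Fin n) ℚ := Matrix.of fun (i j : Fin n) =>
    ∑ v, ((b i v : ℤ) : ℚ) * ((b j v : ℤ) : ℚ) with hG
  set H : Matrix (Fin r) (Fin r) ℚ := Matrix.of fun (i j : Fin r) => ∑ v, A' i v * A' j v with hH
  set f : Fin n ⊕ Fin r → W → ℚ := Sum.elim (fun i v => ((b i v : ℤ) : ℚ)) A with hf
  set g : Fin n ⊕ Fin r → W' → ℚ := Sum.elim (fun i v => ((b' i v : ℤ) : ℚ)) A' with hg
  set X : Matrix (Fin n ⊕ Fin r) (Fin n ⊕ Fin r) ℚ := Matrix.of fun i j => f i (p j) with hX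
  set Y : Matrix (Fin n ⊕ Fin r) (Fin n ⊕ Fin r) ℚ :=
    Matrix.of fun i j => g i ((p.trans q) j) with hY
  have e1 : ∀ i j, (X.map (Rat.cast : ℚ → K) * (J.submatrix id q).submatrix p p *
      (Y.map (Rat.cast : ℚ → K)).transpose) i j =
      ∑ w, (∑ v, (f i v : K) * J v w) * (g j w : K) := by
    intro i j
    rw [Matrix.mul_apply]
    refine Fintype.sum_equiv (p.trans q) _ _ fun x => ?_
    rw [Matrix.mul_apply]
    congr 1
    exact Fintype.sum_equiv p _ _ fun y => rfl
  have e2 : ∀ i j, ∑ w, (∑ v, (f i v : K) * J v w) * (g (Sum.inl j) w : K) =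
      ∑ l, (∑ v, (f i v : K) * (b l v : K)) * M l j := by
    intro i j
    calc ∑ w, (∑ v, (f i v : K) * J v w) * (g (Sum.inl j) w : K)
        = ∑ v, (f i v : K) * ∑ w, J v w * (b' j w : K) := by
          simp only [Finset.sum_mul, Finset.mul_sum]
          rw [Finset.sum_comm]
          refine Finset.sum_congr rfl fun v _ => Finset.sum_congr rfl fun w _ => ?_
          simp only [hg, Sum.elim_inl, Rat.cast_intCast]
          ring
      _ = ∑ v, (f i v : K) * ∑ l, (b l v : K) * M l j := by
          simp only [h1]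
      _ = _ := by
          simp only [Finset.sum_mul, Finset.mul_sum]
          rw [Finset.sum_comm]
          refine Finset.sum_congr rfl fun l _ => Finset.sum_congr rfl fun v _ => ?_
          ring
  have key : X.map (Rat.cast : ℚ → K) * (J.submatrix id q).submatrix p p *
      (Y.map (Rat.cast : ℚ → K)).transpose = Matrix.fromBlocks (G.map (Rat.cast : ℚ → K) * M)
        (Matrix.of fun i j => ∑ w, (∑ v, (f (Sum.inl i) v : K) * J v w) * (g (Sum.inr j) w : K)) 0
        (H.map (Rat.cast : ℚ → K)) := by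
    ext i j
    rw [e1]
    rcases i with i | i <;> rcases j with j | j
    · rw [e2, Matrix.fromBlocks_apply₁₁, Matrix.mul_apply]
      refine Finset.sum_congr rfl fun l _ => ?_
      congr 1
      simp [hG, hf]
    · rfl
    · rw [e2, Matrix.fromBlocks_apply₂₁, Matrix.zero_apply]
      refine Finset.sum_eq_zero fun l _ => ?_
      have : ∑ v, (f (Sum.inr i) v : K) * (b l v : K) = 0 := by
        have h3 := congrArg (Rat.cast : ℚ → K) (hA2 l i)
        rw [Rat.cast_zero, Rat.cast_sum] at h3
        rw [← h3]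
        refine Finset.sum_congr rfl fun v _ => ?_
        simp only [hf, Sum.elim_inr, Rat.cast_mul, Rat.cast_intCast]
        ring
      rw [this, zero_mul]
    · rw [Matrix.fromBlocks_apply₂₂]
      simp only [hf, hg, Sum.elim_inr, hA', hH, Matrix.map_apply, Matrix.of_apply, Rat.cast_sum,
        Rat.cast_mul]
  have hdet := congrArg Matrix.det key
  have m1 : ∀ {m : Type} [Fintype m] [DecidableEq m] (Z : Matrix m m ℚ),
      (Z.map (Rat.cast : ℚ → K)).det = ((Z.det : ℚ) : K) := fun Z =>
    ((Rat.castHom K).map_det Z).symm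
  rw [Matrix.det_mul, Matrix.det_mul, Matrix.det_transpose, Matrix.det_fromBlocks_zero₂₁,
    Matrix.det_mul, m1, m1, m1, m1, Matrix.det_submatrix_equiv_self] at hdet
  refine ⟨X.det * Y.det / (G.det * H.det), ?_, ?_⟩
  · exact div_ne_zero (mul_ne_zero d1 d2) (mul_ne_zero g1 g2)
  · have g1K : (G.det : K) ≠ 0 := by exact_mod_cast g1
    have g2K : (H.det : K) ≠ 0 := by exact_mod_cast g2
    rw [Rat.cast_div, Rat.cast_mul, Rat.cast_mul]
    field_simp
    linear_combination - hdet

end H66

end PosGeom
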