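import Pool.Agent.Helper93_ABCT.StmtK

/-!
# WVER: the Veronese parametrization and Vandermonde vectors (helper66)
-/

open MvPolynomial Topology

namespace PosGeom

namespace H66

open ABCT

theorem mem_pw {k n : ℕ} (I : PIdx k n) :
    emb0 k n I ∈ (List.range n).toFinset.powersetCard k := by
  rw [Finset.mem_powersetCard]
  constructor
  · intro i hi
    simp only [emb0, Finset.mem_map, Fin.valEmbedding_apply] at hi
    obtain ⟨j, _, rfl⟩ := hi
    simp
  · simp [emb0, I.2]

theorem getD_range {n i : ℕ} (h : i < n) : (List.range n).getD i 0 = i := by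
  simp [List.getD, h]

/-- the minors of the Veronese matrix in affine form -/
theorem plucker_aff {k n : ℕ} (s t : Fin n → ℂ) (I : PIdx k n) :
    plucker (veronese k n s (fun j => s j * t j)) I =
      (∏ j ∈ I.1, s j ^ (k - 1)) *
        ∏ i : Fin k, ∏ j ∈ Finset.Ioi i,
          (t (I.1.orderEmbOfFin I.2 j) - t (I.1.orderEmbOfFin I.2 i)) := by
  unfold plucker
  have h : (veronese k n s (fun j => s j * t j)).submatrix id (I.1.orderEmbOfFin I.2) =
      (Matrix.vandermonde (fun j => t (I.1.orderEmbOfFin I.2 j))).transpose *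
        Matrix.diagonal (fun j => s (I.1.orderEmbOfFin I.2 j) ^ (k - 1)) := by
    ext i j
    rw [Matrix.mul_diagonal]
    simp only [veronese, Matrix.submatrix_apply, Matrix.of_apply, Matrix.transpose_apply,
      Matrix.vandermonde_apply, id_eq]
    have hi : k - 1 - (i : ℕ) + (i : ℕ) = k - 1 := by have := i.2; omega
    rw [mul_pow, ← mul_assoc, ← pow_add, hi]
    ring
  rw [h, Matrix.det_mul, Matrix.det_transpose, Matrix.det_vandermonde, Matrix.det_diagonal,
    mul_comm]
  congr 1
  have hm := Finset.map_orderEmbOfFin_univ I.1 I.2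
  conv_rhs => rw [← hm]
  rw [Finset.prod_map]
  rfl

theorem prod_prs {k n : ℕ} (t : ℕ → ℂ) (I : PIdx k n) :
    ∏ p ∈ prsAll (List.range n) (emb0 k n I),
      (t ((List.range n).getD p.2 0) - t ((List.range n).getD p.1 0)) =
    ∏ i : Fin k, ∏ j ∈ Finset.Ioi i,
      (t (I.1.orderEmbOfFin I.2 j) - t (I.1.orderEmbOfFin I.2 i)) := by
  rw [Finset.prod_sigma' (Finset.univ : Finset (Fin k)) (fun i => Finset.Ioi i)
    (fun i j => t (I.1.orderEmbOfFin I.2 j) - t (I.1.orderEmbOfFin I.2 i))]
  symm
  refine Finset.prod_nbij (fun x => (((I.1.orderEmbOfFin I.2 x.1 : Fin n) : ℕ),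
    ((I.1.orderEmbOfFin I.2 x.2 : Fin n) : ℕ))) ?_ ?_ ?_ ?_
  · rintro ⟨i, j⟩ hij
    simp only [Finset.mem_sigma, Finset.mem_univ, Finset.mem_Ioi, true_and] at hij
    simp only [prsAll, Finset.mem_filter, Finset.mem_product, Finset.mem_range, List.length_range]
    have h1 : ((I.1.orderEmbOfFin I.2 i : Fin n) : ℕ) < n := Fin.is_lt _
    have h2 : ((I.1.orderEmbOfFin I.2 j : Fin n) : ℕ) < n := Fin.is_lt _
    refine ⟨⟨h1, h2⟩, ?_, ?_, ?_⟩
    · exact (I.1.orderEmbOfFin I.2).strictMono hij
    · rw [getD_range h1]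
      exact Finset.mem_map.mpr ⟨_, Finset.orderEmbOfFin_mem I.1 I.2 i, rfl⟩
    · rw [getD_range h2]
      exact Finset.mem_map.mpr ⟨_, Finset.orderEmbOfFin_mem I.1 I.2 j, rfl⟩
  · rintro ⟨i, j⟩ _ ⟨i', j'⟩ _ h
    simp only [Prod.mk.injEq] at h
    have h1 := (I.1.orderEmbOfFin I.2).injective (Fin.ext h.1)
    have h2 := (I.1.orderEmbOfFin I.2).injective (Fin.ext h.2)
    subst h1 h2
    rfl
  · rintro ⟨p, q⟩ hpq
    simp only [prsAll, Finset.coe_filter, Finset.mem_product, Finset.mem_range,
      List.length_range, Set.mem_setOf_eq] at hpq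
    obtain ⟨⟨h1, h2⟩, h3, h4, h5⟩ := hpq
    rw [getD_range h1] at h4
    rw [getD_range h2] at h5
    simp only [emb0, Finset.mem_map, Fin.valEmbedding_apply] at h4 h5
    obtain ⟨a, ha, rfl⟩ := h4
    obtain ⟨b, hb, rfl⟩ := h5
    have hm := Finset.map_orderEmbOfFin_univ I.1 I.2
    rw [← hm, Finset.mem_map] at ha hb
    obtain ⟨i, _, hi⟩ := ha
    obtain ⟨j, _, hj⟩ := hb
    refine ⟨⟨i, j⟩, ?_, ?_⟩
    · simp only [Finset.coe_sigma, Set.mem_sigma_iff, Finset.coe_univ, Set.mem_univ,
        Finset.coe_Ioi, Set.mem_Ioi, true_and]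
      have h6 : (I.1.orderEmbOfFin I.2) i < (I.1.orderEmbOfFin I.2) j := by
        have e1 : (I.1.orderEmbOfFin I.2) i = a := hi
        have e2 : (I.1.orderEmbOfFin I.2) j = b := hj
        rw [e1, e2]
        exact h3
      exact (I.1.orderEmbOfFin I.2).lt_iff_lt.mp h6
    · have e1 : (I.1.orderEmbOfFin I.2) i = a := hi
      have e2 : (I.1.orderEmbOfFin I.2) j = b := hj
      simp only [e1, e2]
  · rintro ⟨i, j⟩ _
    simp only
    rw [getD_range (Fin.is_lt _), getD_range (Fin.is_lt _)]

theorem Q_eq {k n : ℕ} (κ : ℂ) (c t : ℕ → ℂ) (I : PIdx k n) :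
    ABCT.Q (List.range n) k κ c t (emb0 k n I) =
      κ * (∏ j ∈ I.1, c j) * ∏ i : Fin k, ∏ j ∈ Finset.Ioi i,
      (t (I.1.orderEmbOfFin I.2 j) - t (I.1.orderEmbOfFin I.2 i)) := by
  unfold ABCT.Q
  rw [if_pos (mem_pw I), prod_prs]
  congr 2
  unfold emb0
  rw [Finset.prod_map]
  rfl

theorem wver : WverStmt := by
  intro k n hk hkn F
  constructor
  · intro hF κ c t
    obtain ⟨l, hl⟩ := IsAlgClosed.exists_pow_nat_eq κ (n := k) (by omega)
    choose r hr using fun i : ℕ => IsAlgClosed.exists_pow_nat_eq (c i * l) (n := k - 1) (by omega)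
    have h := hF (fun j => r j) (fun j => r j * t j)
    have e : plucker (veronese k n (fun j : Fin n => r j) (fun j => r j * t j)) =
        fun I => ABCT.Q (List.range n) k κ c t (emb0 k n I) := by
      funext I
      rw [Q_eq]
      have := plucker_aff (k := k) (fun j : Fin n => r j) (fun j : Fin n => t j) I
      rw [this]
      congr 1
      have e2 : ∏ j ∈ I.1, r j ^ (k - 1) = ∏ j ∈ I.1, (c j * l) :=
        Finset.prod_congr rfl fun j _ => hr j
      rw [e2, Finset.prod_mul_distrib, Finset.prod_const, I.2, hl, mul_comm]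
    rw [e] at h
    exact h
  · intro hF
    rw [mem_abctIdeal_iff]
    have h1 : (∏ j : Fin n, (X (Sum.inl j) : MvPolynomial (Fin n ⊕ Fin n) ℂ)) * genPl k n F = 0 := by
      apply MvPolynomial.funext
      intro x
      rw [map_zero, map_mul, map_prod]
      simp only [eval_X]
      by_cases h0 : ∏ j : Fin n, x (Sum.inl j) = 0
      · rw [h0, zero_mul]
      · rw [Finset.prod_eq_zero_iff] at h0
        push Not at h0
        have hx : x = Sum.elim (fun j => x (Sum.inl j)) (fun j => x (Sum.inr j)) := by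
          rw [← Sum.elim_comp_inl_inr x]; rfl
        have h2 := eval_genPl F (fun j => x (Sum.inl j)) (fun j => x (Sum.inr j))
        rw [← hx, aeval_eq_eval] at h2
        have h3 : eval x (genPl k n F) = 0 := by
          rw [show eval x (genPl k n F) = aeval (plucker (veronese k n (fun j => x (Sum.inl j))
            (fun j => x (Sum.inr j)))) F from h2]
          let c : ℕ → ℂ := fun i => if h : i < n then x (Sum.inl ⟨i, h⟩) ^ (k - 1) else 0
          let t : ℕ → ℂ := fun i => if h : i < n then x (Sum.inr ⟨i, h⟩) / x (Sum.inl ⟨i, h⟩) else 0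
          rw [← hF 1 c t]
          congr 2
          funext I
          rw [Q_eq]
          have e1 : (fun j : Fin n => x (Sum.inr j)) = fun j : Fin n => x (Sum.inl j) * t j := by
            funext j
            simp only [t, dif_pos j.2, Fin.eta]
            rw [mul_div_cancel₀ _ (h0 j (Finset.mem_univ j))]
          rw [e1]
          have := plucker_aff (k := k) (fun j : Fin n => x (Sum.inl j)) (fun j : Fin n => t j) I
          rw [this, one_mul]
          congr 1
          refine Finset.prod_congr rfl fun j _ => ?_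
          simp only [c, dif_pos j.2, Fin.eta]
        rw [h3, mul_zero]
    rcases mul_eq_zero.mp h1 with h | h
    · rw [Finset.prod_eq_zero_iff] at h
      obtain ⟨j, _, hj⟩ := h
      exact absurd hj (X_ne_zero _)
    · exact h

end H66

end PosGeom
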